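import Pool.Agent.U160.FD.Block2
import Pool.Agent.U160.FD.Digits2
import Pool.Agent.TH212.EH.A6

/-!
# Weighted level of distribution for ALL residues near the blocks of digits of almost every point of a measure with
# Fourier decay

Definitions used, in `Pool.Agent.U160.FD`:
* `FourierDecay μ`: the Fourier transform `μ^(t) = ∫ exp(i t x) dμ(x)` of `μ` is `O(t ^ (-β))` for some `β > 0`;
* `block b x i j`: the integer whose digits in base `b` are the digits of `x` at the places `i + 1, …, j` after the point,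
  that is, the residue of `⌊b ^ j x⌋` modulo `b ^ (j - i)`.

From Mathlib: `ArithmeticFunction.vonMangoldt`: the function `Λ`; `Nat.totient`: Euler's function.

Method (`Pool.Agent.U160.FD`): for all `l ≥ 1` the signed sums of the numbers `{l x_i}` for `2 h` independent points `x_i` of
`μ` are in an interval of length `r` with probability `O(r)`, uniformly in `l` (Fejer kernel on the circle and the decay of
the Fourier transform); thus the weights `μ{x : ⌊M {l x}⌋ + s = a}` have minimal additive energy of order `h`, they are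
approximated by finite families (with multiplicities), and the theorem of the starting files on the weighted level of
distribution for residues in families of nearly minimal energy (`Pool.Agent.TH212.EH.few`) bounds the measure of the
exceptional points; Borel-Cantelli.
-/

set_option autoImplicit false

namespace Pool.Agent.Results.MP_188a10_nt.DigitBlocks

open MeasureTheory Filter Finset Pool.Agent.U160.FD

/-- `E(x; d, a) = ψ(x; d, a) - x / φ(d)`, where `ψ(x; d, a)` is the sum of `Λ(n)` over the `n ≤ x` with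
`n ≡ a (mod d)`. -/
noncomputable def E (x d a : ℕ) : ℝ :=
  ∑ n ∈ (Icc 1 x).filter (fun n : ℕ => n ≡ a [MOD d]), ArithmeticFunction.vonMangoldt n - (x : ℝ) / Nat.totient d

/-- `τ(d)`: the number of the divisors of `d`. In particular `τ(d) ^ 2 ≥ 3 ^ ν(d)`, where `ν(d)` is the number of
the prime factors of `d`. -/
noncomputable def τ (d : ℕ) : ℝ := d.divisors.card

/-- `N / exp (K (log log N) ^ 2)` -/
noncomputable def level (K N : ℕ) : ℝ := N / Real.exp (K * Real.log (Real.log N) ^ 2)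

/-- The sum of `λ(d) E(y(d); d, a)` over the `d ≤ Q` coprime to `a`. -/
noncomputable def weighted (lam : ℕ → ℝ) (y : ℕ → ℕ) (Q a : ℕ) : ℝ :=
  ∑ d ∈ (Icc 1 Q).filter (fun d : ℕ => a.Coprime d), lam d * E (y d) d a

/-- For all `Q ≤ N / exp (K (log log N) ^ 2)` the sum of `λ(d) E(y(d); d, a)` over the `d ≤ Q` coprime to `a` is at most
`N / log ^ U N` in absolute value, and also the sum of `λ(d) E(z; d, a)`, for all `z ≤ B N`. -/
def Holds (B U K N : ℕ) (lam : ℕ → ℝ) (y : ℕ → ℕ) (a : ℕ) : Prop :=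
  ∀ Q : ℕ, (Q : ℝ) ≤ level K N → |weighted lam y Q a| ≤ N / Real.log N ^ U ∧
    ∀ z : ℕ, z ≤ B * N → |weighted lam (fun _ => z) Q a| ≤ N / Real.log N ^ U

/-- the hypothesis of the general theorem -/
lemma fam (h B C U T U₀ : ℕ) : ∃ K N₀ : ℕ, ∀ N : ℕ, N₀ ≤ N → ∀ X : (ℕ → ℝ) × (ℕ → ℕ),
    ((∀ d, |X.1 d| ≤ (τ d * Real.log N) ^ T) ∧ ∀ d, X.2 d ≤ B * N) →
    ∀ (ι : Type) [Fintype ι] (v : ι → ℤ), (∀ i, |v i| ≤ B * N) →
      (Pool.Agent.TH935.GF.En h v : ℝ) * N ≤ Real.log N ^ C * (Fintype.card ι : ℝ) ^ (2 * h) →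
      ∀ S : Finset ι, (∀ i ∈ S, 0 < v i ∧ ¬ Holds B U K N X.1 X.2 (v i).toNat) →
        (S.card : ℝ) ≤ Fintype.card ι / Real.log N ^ U₀ := by
  classical
  obtain ⟨K, n0, h0⟩ := Pool.Agent.TH212.EH.few h B C T (U + U₀ + 1)
  obtain ⟨n1, h1⟩ := Pool.Agent.H373R2.T7.ev_L' 2
  refine ⟨K, n0 + n1 + 3, fun N hN X hX ι _ v hv hE S hS => ?_⟩
  have hL := h1 N (by omega)
  have hN0 : (0:ℝ) < N := by exact_mod_cast (by omega : 0 < N)
  obtain ⟨L, hLd⟩ : ∃ L, L = Real.log (N : ℝ) := ⟨_, rfl⟩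
  have hL1 : 1 ≤ L := by rw [hLd]; linarith
  have hL0 : 0 < L := by linarith
  obtain ⟨k1, k2⟩ := h0 N (by omega) ι v hv hE X.1 (fun q => by
    refine (hX.1 q).trans (le_of_eq ?_)
    rw [mul_pow, mul_comm]
    rfl)
  have k3 := k2 X.2 hX.2
  have hsub : S ⊆ univ.filter (fun i : ι => 0 < v i ∧ ∃ Q : ℕ, (Q : ℝ) ≤ Pool.Agent.TH212.EH.level K N ∧ ∃ y : ℕ, y ≤ B * N ∧
      (N : ℝ) / Real.log N ^ (U + U₀ + 1) < |Pool.Agent.TH212.EH.W X.1 Q y (v i).toNat|) ∪
      univ.filter (fun i : ι => 0 < v i ∧ ∃ Q : ℕ, (Q : ℝ) ≤ Pool.Agent.TH212.EH.level K N ∧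
      (N : ℝ) / Real.log N ^ (U + U₀ + 1) < |Pool.Agent.TH212.EH.WW X.1 X.2 Q (v i).toNat|) := by
    intro i hi
    obtain ⟨a1, a2⟩ := hS i hi
    have hle : (N : ℝ) / Real.log N ^ (U + U₀ + 1) ≤ N / Real.log N ^ U := by
      rw [← hLd]
      apply div_le_div_of_nonneg_left hN0.le (by positivity)
      exact pow_le_pow_right₀ hL1 (by omega)
    unfold Holds at a2
    push Not at a2
    obtain ⟨Q, hQ, hQ2⟩ := a2
    rw [mem_union, mem_filter, mem_filter]
    by_cases hc : |weighted X.1 X.2 Q (v i).toNat| ≤ N / Real.log N ^ U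
    · obtain ⟨z, hz1, hz2⟩ := hQ2 hc
      left
      exact ⟨mem_univ _, a1, Q, hQ, z, hz1, hle.trans_lt hz2⟩
    · right
      rw [not_le] at hc
      exact ⟨mem_univ _, a1, Q, hQ, hle.trans_lt hc⟩
  have hcard : (S.card : ℝ) ≤ Fintype.card ι / L ^ (U + U₀ + 1) + Fintype.card ι / L ^ (U + U₀ + 1) := by
    rw [hLd]
    have e1 := (card_le_card hsub).trans (card_union_le _ _)
    have e2 : (S.card : ℝ) ≤ ((univ.filter (fun i : ι => 0 < v i ∧ ∃ Q : ℕ, (Q : ℝ) ≤ Pool.Agent.TH212.EH.level K N ∧ ∃ y : ℕ, y ≤ B * N ∧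
      (N : ℝ) / Real.log N ^ (U + U₀ + 1) < |Pool.Agent.TH212.EH.W X.1 Q y (v i).toNat|)).card : ℝ) +
      ((univ.filter (fun i : ι => 0 < v i ∧ ∃ Q : ℕ, (Q : ℝ) ≤ Pool.Agent.TH212.EH.level K N ∧
      (N : ℝ) / Real.log N ^ (U + U₀ + 1) < |Pool.Agent.TH212.EH.WW X.1 X.2 Q (v i).toNat|)).card : ℝ) := by
      exact_mod_cast e1
    exact e2.trans (add_le_add k1 k3)
  refine hcard.trans ?_
  have hc0 : (0:ℝ) ≤ Fintype.card ι := Nat.cast_nonneg _
  have e3 : (Fintype.card ι : ℝ) / L ^ (U + U₀ + 1) + Fintype.card ι / L ^ (U + U₀ + 1) =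
      (Fintype.card ι / L ^ U₀) * (2 / L ^ (U + 1)) := by
    rw [pow_add, pow_add, pow_add]
    field_simp
    ring
  rw [e3, ← hLd]
  apply mul_le_of_le_one_right (by positivity)
  rw [div_le_one (by positivity)]
  rw [← hLd] at hL
  calc (2:ℝ) ≤ L := hL
    _ = L ^ 1 := (pow_one L).symm
    _ ≤ L ^ (U + 1) := pow_le_pow_right₀ hL1 (by omega)

/-- Let `μ` be a probability measure on the line whose Fourier transform is `O(t ^ (-β))` for some `β > 0` (for example a
measure on a set of arbitrarily small positive dimension). Let a base `b ≥ 2`, `η > 0`, `B`, `T`, `U` and `W` be given.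
Then there is a `K` with the following property. For every `N` let arbitrary coefficients `λ_N(d)` with
`|λ_N(d)| ≤ (τ(d) log N) ^ T` (for instance `λ_N(d) = μ(d) ^ 2 3 ^ ν(d)`, or these numbers with arbitrary signs, if `T = 2`) and
arbitrary lengths `y_N(d) ≤ B N` be given. Then for `μ`-almost every `x` and all large `j`: for ALL the blocks of `k ≥ j ^ η`
digits of `x` in base `b` which end at the place `j` after the point and for ALL integers `a ≥ 1` at a distance of at most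
`k ^ W` from the integer with these digits, if `N = b ^ k`, then for all `Q ≤ N / exp (K (log log N) ^ 2)` the sum of
`λ_N(d) E(y_N(d); d, a)` over the `d ≤ Q` coprime to `a` is at most `N / log ^ U N` in absolute value, and the same holds for
the sum of `λ_N(d) E(z; d, a)`, for all `z ≤ B N`. -/
theorem result (μ : Measure ℝ) [IsProbabilityMeasure μ] (hμ : FourierDecay μ) (b B T U W : ℕ) (η : ℝ) (hb : 2 ≤ b)
    (hη : 0 < η) : ∃ K : ℕ, ∀ (lam : ℕ → ℕ → ℝ) (y : ℕ → ℕ → ℕ),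
      (∀ N d, |lam N d| ≤ (τ d * Real.log N) ^ T) → (∀ N d, y N d ≤ B * N) →
      ∀ᵐ x ∂μ, ∀ᶠ j : ℕ in atTop, ∀ k : ℕ, k ≤ j → (j : ℝ) ^ η ≤ k → ∀ a : ℕ, 1 ≤ a →
        |(a : ℝ) - block b x (j - k) j| ≤ (k : ℝ) ^ W → Holds B U K (b ^ k) (lam (b ^ k)) (y (b ^ k)) a := by
  classical
  obtain ⟨h, B', C, κ, U', hh, hmain⟩ := ae_block2 μ hμ (blockF b η) (η / 2) (by positivity) 0 2 (blockF_ok b hb η hη) (W + 2)
  obtain ⟨K, N₀, hfam⟩ := fam h (max B B') C U T U'
  refine ⟨K, fun lam y hlam hy => ?_⟩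
  have key := hmain ((ℕ → ℝ) × (ℕ → ℕ)) (fun N X => (∀ d, |X.1 d| ≤ (τ d * Real.log N) ^ T) ∧ ∀ d, X.2 d ≤ B * N)
    (fun N X a => 1 ≤ a → Holds B U K N X.1 X.2 a) (by
      refine ⟨N₀, fun N hN X hX ι _ v hv hE S hS => hfam N hN X ⟨hX.1, fun d => (hX.2 d).trans
        (Nat.mul_le_mul_right _ (le_max_left _ _))⟩ ι v (fun i => (hv i).trans ?_) hE S fun i hi => ?_⟩
      · exact_mod_cast Nat.mul_le_mul_right N (le_max_right B B')
      · obtain ⟨a1, _, a3⟩ := hS i hi
        push Not at a3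
        refine ⟨a1, fun hcon => a3.2 fun Q hQ => ?_⟩
        obtain ⟨c1, c2⟩ := hcon Q hQ
        exact ⟨c1, fun z hz => c2 z (hz.trans (Nat.mul_le_mul_right _ (le_max_left _ _)))⟩)
    (fun p => (lam ⌈p.2.1⌉₊, y ⌈p.2.1⌉₊)) (Eventually.of_forall fun j p _ => ⟨hlam _, hy _⟩)
  filter_upwards [key] with x hx
  filter_upwards [hx, block_dist b hb η hη W] with j h2 h3 k hk hkη a ha had
  obtain ⟨h4, h5⟩ := h3 x k hk hkη
  have h6 := h2 _ h4 a (h5 a had) ha
  have hceil : ⌈(b : ℝ) ^ k⌉₊ = b ^ k := by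
    have : ((b : ℝ) ^ k) = ((b ^ k : ℕ) : ℝ) := by push_cast; rfl
    rw [this, Nat.ceil_natCast]
  simp only [hceil] at h6
  exact h6

end Pool.Agent.Results.MP_188a10_nt.DigitBlocks
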