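import Pool.Agent.U996.EH.Final

/-!
# Weighted level of distribution for real moduli

The estimate of the problem, at every level `θ < 1`, for the primes in the progressions `⌊α d m⌋ + h`, `m = 1, 2, …`,
with the real moduli `α d`, for almost every real `α > 0` and all integers `h`; and its form for arbitrary sets of `m`.
-/

set_option autoImplicit false

namespace Pool.Agent.Results.MP_188a10_nt.MetricRealModuli

open Finset MeasureTheory Filter Topology

/-- `z` is a (positive) prime number -/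
def IsPrime (z : ℤ) : Prop := z.toNat.Prime

/-- `π(y; β, h)`: the number of integers `m ≥ 1` for which `⌊β m⌋ + h` is a prime `≤ y` -/
noncomputable def primesIn (y β : ℝ) (h : ℤ) : ℕ :=
  Set.ncard {m : ℕ | 1 ≤ m ∧ IsPrime (⌊β * m⌋ + h) ∧ ((⌊β * m⌋ + h : ℤ) : ℝ) ≤ y}

/-- `li(y) = ∫_2^y dt / log t` -/
noncomputable def li (y : ℝ) : ℝ := ∫ t in (2 : ℝ)..y, 1 / Real.log t

/-- the integers `1 ≤ d ≤ N ^ θ`, `d ≤ N` -/
noncomputable def moduli (N : ℕ) (θ : ℝ) : Finset ℕ := (Icc 1 N).filter fun d => (d : ℝ) ≤ (N : ℝ) ^ θ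

/-- `τ(d)`, the number of divisors -/
def tau (d : ℕ) : ℕ := d.divisors.card

/-- `ν(d)`: the number of distinct prime factors -/
def nuD (d : ℕ) : ℕ := d.primeFactors.card

/-- the number of the `m ∈ S`, `1 ≤ m ≤ M`, for which `⌊β m⌋ + h` is prime -/
noncomputable def count (S : Set ℕ) (β : ℝ) (h : ℤ) (M : ℕ) : ℕ :=
  Set.ncard {m : ℕ | 1 ≤ m ∧ m ≤ M ∧ m ∈ S ∧ IsPrime (⌊β * m⌋ + h)}

/-- `1 / log z` for `z ≥ 3` and `0` otherwise -/
noncomputable def rho (z : ℤ) : ℝ := if 3 ≤ z then 1 / Real.log z else 0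

open Classical in
/-- the expected number: the sum over the `m ∈ S`, `1 ≤ m ≤ M`, of `1 / log (⌊β m⌋ + h)` -/
noncomputable def expected (S : Set ℕ) (β : ℝ) (h : ℤ) (M : ℕ) : ℝ :=
  ∑ m ∈ (Icc 1 M).filter (fun m => m ∈ S), rho (⌊β * m⌋ + h)

open Classical in
open Pool.Agent.U996.UW in
lemma count_eq (S : Set ℕ) (β : ℝ) (h : ℤ) (M : ℕ) :
    (count S β h M : ℝ) = ∑ m ∈ Icc 1 M, (if m ∈ S then (1 : ℝ) else 0) * pz (⌊β * m⌋ + h) := by
  have e1 : {m : ℕ | 1 ≤ m ∧ m ≤ M ∧ m ∈ S ∧ IsPrime (⌊β * m⌋ + h)} =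
      (((Icc 1 M).filter fun m => m ∈ S ∧ IsPrime (⌊β * (m : ℝ)⌋ + h) : Finset ℕ) : Set ℕ) := by
    ext p
    simp only [Set.mem_ofPred_eq, Finset.coe_filter, Finset.mem_Icc, and_assoc]
  unfold count
  rw [e1, Set.ncard_coe_finset, Finset.card_filter]
  push_cast
  refine Finset.sum_congr rfl fun m _ => ?_
  unfold pz IsPrime
  by_cases h1 : m ∈ S
  · by_cases h2 : (⌊β * (m : ℝ)⌋ + h).toNat.Prime
    · rw [if_pos ⟨h1, h2⟩, if_pos h1, if_pos h2, one_mul]
    · rw [if_neg (fun hh => h2 hh.2), if_neg h2, mul_zero]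
  · rw [if_neg (fun hh => h1 hh.1), if_neg h1, zero_mul]

open Classical in
open Pool.Agent.U996.UW in
lemma expected_eq (S : Set ℕ) (β : ℝ) (h : ℤ) (M : ℕ) :
    expected S β h M = ∑ m ∈ Icc 1 M, (if m ∈ S then (1 : ℝ) else 0) * rz (⌊β * m⌋ + h) := by
  unfold expected
  rw [Finset.sum_filter]
  refine Finset.sum_congr rfl fun n _ => ?_
  split_ifs
  · rw [one_mul]
    rfl
  · rw [zero_mul]

open Pool.Agent.U996.UW Pool.Agent.U996.EH in
lemma primesIn_eq (y β : ℝ) (hβ : 0 < β) (h : ℤ) :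
    (primesIn y β h : ℝ) = ∑ m ∈ Icc 1 (len β h y), pz (⌊β * m⌋ + h) := by
  classical
  have e1 : {m : ℕ | 1 ≤ m ∧ IsPrime (⌊β * m⌋ + h) ∧ ((⌊β * m⌋ + h : ℤ) : ℝ) ≤ y} =
      (((Icc 1 (len β h y)).filter fun m => IsPrime (⌊β * (m : ℝ)⌋ + h) : Finset ℕ) : Set ℕ) := by
    ext p
    simp only [Set.mem_ofPred_eq, Finset.coe_filter, Finset.mem_Icc]
    constructor
    · rintro ⟨h1, h2, h3⟩
      exact ⟨⟨h1, (len_iff β hβ h y p h1).2 h3⟩, h2⟩
    · rintro ⟨⟨h1, h3⟩, h2⟩
      exact ⟨h1, h2, (len_iff β hβ h y p h1).1 h3⟩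
  unfold primesIn
  rw [e1, Set.ncard_coe_finset, Finset.card_filter]
  push_cast
  refine Finset.sum_congr rfl fun m _ => ?_
  unfold pz IsPrime
  split_ifs <;> rfl

lemma two_pow_le (n : ℕ) (hn : n ≠ 0) : 2 ^ nuD n ≤ tau n := by
  unfold nuD tau
  rw [Nat.card_divisors hn, ← Finset.prod_const]
  refine Finset.prod_le_prod' fun p hp => ?_
  have h1 := (Nat.mem_primeFactors.1 hp)
  have h2 := h1.1.factorization_pos_of_dvd hn h1.2.1
  omega

lemma three_pow_le (n : ℕ) (hn : n ≠ 0) : (3 : ℝ) ^ nuD n ≤ (tau n : ℝ) ^ 2 := by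
  have h1 : ((2 : ℝ) ^ nuD n) ≤ tau n := by exact_mod_cast two_pow_le n hn
  calc (3 : ℝ) ^ nuD n ≤ 4 ^ nuD n := pow_le_pow_left₀ (by norm_num) (by norm_num) _
    _ = ((2 : ℝ) ^ nuD n) ^ 2 := by
        rw [← pow_mul, mul_comm, pow_mul]
        norm_num
    _ ≤ _ := pow_le_pow_left₀ (by positivity) h1 2

open Classical in
open Pool.Agent.U996.UW Pool.Agent.U996.EH in
/-- **Real moduli.** Let `S d`, `d ≥ 1`, be arbitrary sets of natural numbers. For almost every real `α > 0` the following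
holds for all integers `h`, all `θ < 1` and all `A`.

(1) `∑_{d ≤ N^θ} τ(d)^T |π(y_d; α d, h) - li(y_d) / (α d)| ≤ N / (log N)^A` for every `T`, all large `N` and every choice of
real numbers `2 ≤ y_d ≤ N`.

(2) `∑_{d ≤ N^θ, d squarefree} 3^ν(d) |π(y_d; α d, h) - li(y_d) / (α d)| ≤ N / (log N)^A` for all large `N` and every
choice of real numbers `2 ≤ y_d ≤ N`.

(3) For all `T`, all large `N` and every choice of natural numbers `M_d ≤ N / d`: the sum over the `d ≤ N^θ` of `τ(d)^T`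
times the difference between the number of the `m ∈ S d`, `m ≤ M_d`, with `⌊α d m⌋ + h` prime and the sum of the
`1 / log (⌊α d m⌋ + h)` over these `m`, in absolute value, is at most `N / (log N)^A`. -/
theorem result (S : ℕ → Set ℕ) :
    ∀ᵐ α : ℝ, 0 < α → ∀ (h : ℤ) (θ : ℝ), θ < 1 → ∀ A : ℕ,
      (∀ T : ℕ, ∀ᶠ N : ℕ in atTop, ∀ y : ℕ → ℝ, (∀ d, 2 ≤ y d ∧ y d ≤ N) →
        ∑ d ∈ moduli N θ, (tau d : ℝ) ^ T * |(primesIn (y d) (α * d) h : ℝ) - li (y d) / (α * d)| ≤
          N / Real.log N ^ A) ∧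
      (∀ᶠ N : ℕ in atTop, ∀ y : ℕ → ℝ, (∀ d, 2 ≤ y d ∧ y d ≤ N) →
        ∑ d ∈ (moduli N θ).filter (fun d => Squarefree d),
          (3 : ℝ) ^ nuD d * |(primesIn (y d) (α * d) h : ℝ) - li (y d) / (α * d)| ≤
          N / Real.log N ^ A) ∧
      (∀ T : ℕ, ∀ᶠ N : ℕ in atTop, ∀ M : ℕ → ℕ, (∀ d, d * M d ≤ N) →
        ∑ d ∈ moduli N θ, (tau d : ℝ) ^ T *
          |(count (S d) (α * d) h (M d) : ℝ) - expected (S d) (α * d) h (M d)| ≤
          N / Real.log N ^ A) := by
  filter_upwards [dyad_ae (fun _ _ => 1) (fun _ _ => by simp),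
    dyad_ae (fun d n => if n ∈ S d then (1 : ℝ) else 0) (fun d n => by split_ifs <;> simp)]
    with α h1 h2 hα h θ hθ A
  have hp : ∀ T : ℕ, ∀ᶠ N : ℕ in atTop, ∀ y : ℕ → ℝ, (∀ d, 2 ≤ y d ∧ y d ≤ N) →
        ∑ d ∈ moduli N θ, (tau d : ℝ) ^ T * |(primesIn (y d) (α * d) h : ℝ) - li (y d) / (α * d)| ≤
          N / Real.log N ^ A := by
    intro T
    obtain ⟨κ, hκ⟩ : ∃ κ : ℕ, κ = ⌈(|(h : ℝ)| + 2) / α⌉₊ + 2 := ⟨_, rfl⟩
    have hκ2 : 2 ≤ κ := by omega
    have hκr : (|(h : ℝ)| + 2) / α ≤ κ := by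
      rw [hκ]
      push_cast
      have := Nat.le_ceil ((|(h : ℝ)| + 2) / α)
      linarith
    have h3 := all_of_dyad (fun d M => |∑ n ∈ Icc 1 M, 1 * (pz (⌊α * d * n⌋ + h) - rz (⌊α * d * n⌋ + h))|)
      (fun d M => abs_nonneg _) T (fun r K κ hk => h1 hα h r T K κ hk) θ hθ (A + 1) κ hκ2
    have h4 := tau_small T (A + 1) θ hθ (2 + (2 + 2 * |(h : ℝ)|) / α) (by positivity)
    filter_upwards [h3, h4, eventually_ge_atTop 2, nlog.eventually_ge_atTop 2] with N h5 h6 h7 h8 y hy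
    have hN2 : (2 : ℝ) ≤ N := by exact_mod_cast h7
    have hlog0 : 0 < Real.log N := by linarith
    have hpos := abs_nonneg (h : ℝ)
    have hM : ∀ d ∈ upto N θ, len (α * d) h (y d) * d ≤ κ * N := by
      intro d hd
      unfold upto at hd
      rw [mem_filter, mem_Icc] at hd
      have hd0 : (0 : ℝ) < d := by exact_mod_cast hd.1.1
      have h9 := len_le (α * d) (by positivity) h (y d) (by linarith [(hy d).1])
      have h10 : (len (α * d) h (y d) : ℝ) * d * α ≤ (|(h : ℝ)| + 2) * N := by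
        have h11 : |(h : ℝ)| * 1 ≤ |(h : ℝ)| * N := mul_le_mul_of_nonneg_left (by linarith) hpos
        calc (len (α * d) h (y d) : ℝ) * d * α = (len (α * d) h (y d) : ℝ) * (α * d) := by ring
          _ ≤ y d + |(h : ℝ)| + 1 := h9
          _ ≤ _ := by linarith [(hy d).2]
      have h11 : (len (α * d) h (y d) : ℝ) * d ≤ κ * N := by
        calc (len (α * d) h (y d) : ℝ) * d ≤ (|(h : ℝ)| + 2) * N / α := by
              rwa [le_div_iff₀ hα]
          _ = (|(h : ℝ)| + 2) / α * N := by ring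
          _ ≤ _ := mul_le_mul_of_nonneg_right hκr (by linarith)
      exact_mod_cast h11
    have h9 := h5 (fun d => len (α * d) h (y d)) hM
    have h10 : ∑ d ∈ moduli N θ, (tau d : ℝ) ^ T *
        |(primesIn (y d) (α * d) h : ℝ) - li (y d) / (α * d)| ≤
        ∑ d ∈ upto N θ, (d.divisors.card : ℝ) ^ T *
          |∑ n ∈ Icc 1 (len (α * d) h (y d)), 1 * (pz (⌊α * d * n⌋ + h) - rz (⌊α * d * n⌋ + h))| +
        (2 + (2 + 2 * |(h : ℝ)|) / α) * ∑ d ∈ upto N θ, (d.divisors.card : ℝ) ^ T := by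
      rw [Finset.mul_sum, ← Finset.sum_add_distrib]
      refine Finset.sum_le_sum fun d hd => ?_
      unfold moduli at hd
      rw [mem_filter, mem_Icc] at hd
      have hd1 : (1 : ℝ) ≤ d := by exact_mod_cast hd.1.1
      have hd0 : (0 : ℝ) < d := by linarith
      have hβ : 0 < α * d := by positivity
      have e1 := primesIn_eq (y d) (α * d) hβ h
      have e2 : li (y d) = Li (y d) := by
        unfold li Li
        rw [max_eq_left (hy d).1]
      have h11 := main_y (α * d) hβ h (y d)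
      have h12 : |(primesIn (y d) (α * d) h : ℝ) - li (y d) / (α * d)| ≤
          |∑ n ∈ Icc 1 (len (α * d) h (y d)), 1 * (pz (⌊α * d * n⌋ + h) - rz (⌊α * d * n⌋ + h))| +
          (2 + (2 + 2 * |(h : ℝ)|) / α) := by
        have e3 : (primesIn (y d) (α * d) h : ℝ) - li (y d) / (α * d) =
          ∑ n ∈ Icc 1 (len (α * d) h (y d)), 1 * (pz (⌊α * d * n⌋ + h) - rz (⌊α * d * n⌋ + h)) +
          (rsum (α * d) h (len (α * d) h (y d)) - Li (y d) / (α * d)) := by
          rw [e1, e2]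
          unfold rsum
          simp only [one_mul, Finset.sum_sub_distrib]
          ring
        rw [e3]
        refine (abs_add_le _ _).trans (add_le_add le_rfl (h11.trans ?_))
        have h13 : (2 + 2 * |(h : ℝ)|) / (α * d) ≤ (2 + 2 * |(h : ℝ)|) / α :=
          div_le_div_of_nonneg_left (by positivity) hα (le_mul_of_one_le_right hα.le hd1)
        linarith
      have h13 : (tau d : ℝ) ^ T * |(primesIn (y d) (α * d) h : ℝ) - li (y d) / (α * d)| ≤
          (tau d : ℝ) ^ T * (|∑ n ∈ Icc 1 (len (α * d) h (y d)),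
            1 * (pz (⌊α * d * n⌋ + h) - rz (⌊α * d * n⌋ + h))| + (2 + (2 + 2 * |(h : ℝ)|) / α)) :=
        mul_le_mul_of_nonneg_left h12 (by positivity)
      refine h13.trans (le_of_eq ?_)
      unfold tau
      ring
    refine h10.trans ((add_le_add h9 h6).trans ?_)
    have e4 : (N : ℝ) / Real.log N ^ (A + 1) + N / Real.log N ^ (A + 1) =
        (N / Real.log N ^ A) * (2 / Real.log N) := by
      rw [pow_succ]
      field_simp
      ring
    rw [e4]
    have h14 : (N / Real.log N ^ A) * (2 / Real.log N) ≤ (N / Real.log N ^ A) * 1 := by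
      apply mul_le_mul_of_nonneg_left _ (by positivity)
      rw [div_le_one hlog0]
      exact h8
    rw [mul_one] at h14
    exact h14
  refine ⟨hp, ?_, ?_⟩
  · filter_upwards [hp 2] with N h3 y hy
    refine le_trans ?_ (h3 y hy)
    refine le_trans (Finset.sum_le_sum fun d hd => ?_)
      (Finset.sum_le_sum_of_subset_of_nonneg (Finset.filter_subset _ _) fun d _ _ => by positivity)
    rw [mem_filter] at hd
    have hd1 : d ≠ 0 := by
      have h4 := hd.1
      unfold moduli at h4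
      rw [mem_filter, mem_Icc] at h4
      omega
    exact mul_le_mul_of_nonneg_right (three_pow_le d hd1) (abs_nonneg _)
  · intro T
    have h3 := all_of_dyad (fun d M => |∑ n ∈ Icc 1 M, (if n ∈ S d then (1 : ℝ) else 0) *
      (pz (⌊α * d * n⌋ + h) - rz (⌊α * d * n⌋ + h))|)
      (fun d M => abs_nonneg _) T (fun r K κ hk => h2 hα h r T K κ hk) θ hθ A 2 le_rfl
    filter_upwards [h3] with N h4 M hM
    refine le_trans (le_of_eq ?_) (h4 M fun d _ => ?_)
    · refine Finset.sum_congr rfl fun d _ => ?_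
      rw [count_eq, expected_eq, ← Finset.sum_sub_distrib]
      unfold tau
      congr 2
      exact Finset.sum_congr rfl fun n _ => by ring
    · have := hM d
      rw [mul_comm]
      omega

end Pool.Agent.Results.MP_188a10_nt.MetricRealModuli
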