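import Mathlib
import Pool.Agent.U365.LM.O

/-!
# The weighted sum beyond the level `1/2` for each individual divisor `q ≤ N^κ`, nested maxima

The starting result NestedMaximum bounds the sum over all `q ≤ N^κ`, `κ < 1/3`, of the weighted sums with
nested maxima over the classes modulo `q`, `q p₁`, `q p₁ p₂`, …; here every *single* `q ≤ N^κ` is treated
which is not a multiple of one of a few exceptional conductors: with a power saving (at most `N^ν`
exceptional conductors up to `N^(1/20)`), and with a saving of an arbitrary power of the logarithm (at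
most `(log N)^C` exceptional conductors up to `N^(1/20)`, each of them larger than `(log N)^A`).

The proof: the starting files `Pool.Agent.R503.T` (each single `q`: comparison with the primes in the
class modulo `q`, power saving) and the files `Pool.Agent.U365.LM` (all `q ≤ N^(1/3)` without an
exceptional conductor have equidistributed primes at all heights, by the large sieve on short blocks of
conductors and many heights).
-/

set_option autoImplicit false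

namespace Pool.Agent.Results.MP_188a10_nt.NestedEachDivisor

open Finset

/-- the number of primes `p ≤ y` with `p ≡ l (mod d)` -/
noncomputable def primePi (y d : ℕ) (l : ℤ) : ℕ :=
  ((Icc 1 y).filter (fun p : ℕ => p.Prime ∧ (p : ℤ) ≡ l [ZMOD d])).card

/-- the number of primes `p ≤ y` -/
noncomputable def primes (y : ℕ) : ℕ := ((Icc 1 y).filter (fun p : ℕ => p.Prime)).card

/-- `π(y; d, l) - li(y)/φ(d)` -/
noncomputable def E (y d : ℕ) (l : ℤ) : ℝ :=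
  (primePi y d l : ℝ) - (∫ t in (2 : ℝ)..y, 1 / Real.log t) / (Nat.totient d : ℝ)

/-- A finite tree `D` of sequences of primes `(p₁, …, p_k)`, written as the lists `[p_k, …, p₁]`. With a
sequence it contains its initial segments; `p_j ≤ N^η` for all `j` and `p_j² ≥ N^ρ p_i` for all `i ≤ j`;
the modulus `q p₁ ⋯ p_k` is squarefree and at most `N^θ`. -/
structure PrimeTree (N q : ℕ) (θ ρ η : ℝ) (D : Finset (List ℕ)) : Prop where
  closed : ∀ p l, p :: l ∈ D → l ∈ D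
  prime : ∀ p l, p :: l ∈ D → p.Prime ∧ (p : ℝ) ≤ (N : ℝ) ^ η
  order : ∀ p l, p :: l ∈ D → ∀ r ∈ p :: l, (N : ℝ) ^ ρ * r ≤ (p : ℝ) ^ 2
  size : ∀ l ∈ D, Squarefree (q * l.prod) ∧ ((q * l.prod : ℕ) : ℝ) ≤ (N : ℝ) ^ θ

/-- A choice of reduced residue classes `a(p₁, …, p_k)` modulo `q p₁ ⋯ p_k` along the tree `D`, such that
`a(p₁, …, p_k) ≡ a(p₁, …, p_j) (mod q p₁ ⋯ p_j)` for all `j ≤ k` with `q p₁ ⋯ p_j ≤ N^(1/2 - σ)`. -/
structure AdaptiveClasses (N q : ℕ) (σ : ℝ) (D : Finset (List ℕ)) (a : List ℕ → ℤ) : Prop where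
  coprime : ∀ l ∈ D, Int.gcd (a l) ((q * l.prod : ℕ) : ℤ) = 1
  coherent : ∀ l ∈ D, ∀ m, m <:+ l → ((q * m.prod : ℕ) : ℝ) ≤ (N : ℝ) ^ (1 / 2 - σ) →
    a l ≡ a m [ZMOD ((q * m.prod : ℕ) : ℤ)]

/-- a finite set `P` of integers `f ≥ 2` with at most `K (1 + z N^(-1/20))` elements up to `z`, for all
`z ≥ 1` -/
def Few (N : ℕ) (K : ℝ) (P : Finset ℕ) : Prop :=
  (∀ f ∈ P, 2 ≤ f) ∧
  ∀ z : ℕ, 1 ≤ z → ((P.filter (fun f => f ≤ z)).card : ℝ) ≤ K * (1 + z * (N : ℝ) ^ (-(1 / 20) : ℝ))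

theorem primePi_eq (y d : ℕ) (l : ℤ) : (primePi y d l : ℝ) = Pool.Agent.R503.N.pn y d l := by
  unfold primePi Pool.Agent.R503.N.pn
  congr 2
  ext p
  rw [mem_filter, mem_filter, Int.modEq_iff_dvd, dvd_sub_comm]

theorem PrimeTree.toLS {x q : ℕ} {θ ρ η σ : ℝ} {D : Finset (List ℕ)} {a : List ℕ → ℤ} (hq : 0 < q)
    (T : PrimeTree x q θ ρ η D) (C : AdaptiveClasses x q σ D a) : Pool.Agent.R503.T.LS x q θ ρ η σ a D := by
  have hmem : ∀ l, l ∈ D → ∀ p ∈ l, ∃ m, p :: m ∈ D := by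
    intro l
    induction l with
    | nil => intro _ p hp; simp at hp
    | cons r l ih =>
      intro hl p hp
      rcases List.mem_cons.1 hp with h | h
      · exact ⟨l, by rw [h]; exact hl⟩
      · exact ih (T.closed r l hl) p h
  refine ⟨hq, fun l hl => (T.size l hl).1, ?_, ?_, ?_, T.closed, ?_, ?_⟩
  · intro l hl p hp
    obtain ⟨m, hm⟩ := hmem l hl p hp
    obtain ⟨h1, h2⟩ := T.prime p m hm
    refine ⟨h1, ?_, h2⟩
    have h3 := T.order p m hm p (by simp)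
    have hp0 : (0 : ℝ) < p := by exact_mod_cast h1.pos
    rw [pow_two] at h3
    exact le_of_mul_le_mul_right h3 hp0
  · intro l hl
    have := (T.size l hl).2
    push_cast at this ⊢
    exact this
  · intro l hl
    exact Int.isCoprime_iff_gcd_eq_one.2 (C.coprime l hl)
  · intro l
    induction l with
    | nil => intro _; exact List.Pairwise.nil
    | cons r l ih =>
      intro hl
      rw [List.pairwise_cons]
      exact ⟨fun p hp => T.order r l hl p (List.mem_cons_of_mem _ hp), ih (T.closed r l hl)⟩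
  · intro l hl m hm hle
    have h1 := C.coherent l hl m hm (by push_cast at hle ⊢; exact hle)
    rw [Int.modEq_iff_dvd, dvd_sub_comm] at h1
    exact h1

/-- **The weighted bound beyond the level `1/2` with nested maxima, for each single divisor `q`.** -/
theorem result : ∀ θ η ρ σ κ : ℝ, 1 / 2 ≤ θ → 0 < η → 0 ≤ σ → 28 * (θ - 1 / 2) + 20 * η + 15 * σ < 1 / 3 →
    2 * (θ - 1 / 2) + σ < ρ → κ + σ < 1 / 3 →
    (∀ ν : ℝ, 0 < ν → ∃ δ : ℝ, 0 < δ ∧ ∀ B : ℕ, 1 ≤ B → ∃ N₀ : ℕ, ∀ N : ℕ, N₀ ≤ N →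
      ∃ P : Finset ℕ, Few N ((N : ℝ) ^ ν) P ∧
      ∀ q : ℕ, 0 < q → (q : ℝ) ≤ (N : ℝ) ^ κ → (∀ f ∈ P, ¬ f ∣ q) →
      ∀ (D : Finset (List ℕ)) (a : List ℕ → ℤ), PrimeTree N q θ ρ η D → AdaptiveClasses N q σ D a →
      ∀ y : List ℕ → ℕ, (∀ l, 2 ≤ y l ∧ y l ≤ N) →
      ∑ l ∈ D, (B : ℝ) ^ (q * l.prod).primeFactors.card *
        |(primePi (y l) (q * l.prod) (a l) : ℝ) - primes (y l) / (Nat.totient (q * l.prod) : ℝ)| ≤
          (N : ℝ) ^ (1 - δ) / q) ∧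
    (∀ B K U : ℕ, 1 ≤ B → ∃ C : ℕ, ∀ A : ℕ, ∃ N₀ : ℕ, ∀ N : ℕ, N₀ ≤ N →
      ∃ P : Finset ℕ, Few N (Real.log N ^ C) P ∧ (∀ f ∈ P, Real.log N ^ A < f) ∧
      ∀ q : ℕ, 0 < q → (q : ℝ) ≤ (N : ℝ) ^ κ → (q.divisors.card : ℝ) ≤ Real.log N ^ K → (∀ f ∈ P, ¬ f ∣ q) →
      ∀ (D : Finset (List ℕ)) (a : List ℕ → ℤ), PrimeTree N q θ ρ η D → AdaptiveClasses N q σ D a →
      ∀ y : List ℕ → ℕ, (∀ l, 2 ≤ y l ∧ y l ≤ N) →
      ∑ l ∈ D, (B : ℝ) ^ (q * l.prod).primeFactors.card * |E (y l) (q * l.prod) (a l)| ≤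
        N / (q * Real.log N ^ U)) := by
  intro θ η ρ σ κ hθ hη hσ h1 h2 hκ
  have h3 : max κ 0 + σ < 1 / 3 := by
    rcases max_cases κ 0 with h | h
    · rw [h.1]; exact hκ
    · rw [h.1]; linarith
  have hκx : ∀ {x q : ℕ}, 1 ≤ x → (q : ℝ) ≤ (x : ℝ) ^ κ → (q : ℝ) ≤ (x : ℝ) ^ (max κ 0) := by
    intro x q hx h
    have hx1 : (1 : ℝ) ≤ x := by exact_mod_cast hx
    exact h.trans (Real.rpow_le_rpow_of_exponent_le hx1 (le_max_left _ _))
  refine ⟨fun ν hν => ?_, fun B K U hB => ?_⟩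
  · obtain ⟨δ, hδ, h⟩ := Pool.Agent.U365.LM.nested_power θ η ρ σ (max κ 0) hθ hη hσ h1 h2 (le_max_right _ _) h3 ν hν
    refine ⟨δ, hδ, fun B hB => ?_⟩
    obtain ⟨x₀, hx₀⟩ := Filter.eventually_atTop.1 (h B hB)
    refine ⟨max x₀ 1, fun N hN => ?_⟩
    have hN1 : 1 ≤ N := (le_max_right _ _).trans hN
    obtain ⟨P, hP2, hPc, hP⟩ := hx₀ N ((le_max_left _ _).trans hN)
    refine ⟨P, ⟨hP2, hPc⟩, fun q hq hqκ hqP D a hD ha y hy => ?_⟩
    refine le_trans (le_of_eq ?_) (hP q (hκx hN1 hqκ) hqP a D (hD.toLS hq ha) y hy)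
    refine sum_congr rfl fun l _ => ?_
    rw [primePi_eq]
    rfl
  · obtain ⟨C, hC⟩ := Pool.Agent.U365.LM.nested_log θ η ρ σ (max κ 0) hθ hη hσ h1 h2 (le_max_right _ _) h3 B K U hB
    refine ⟨C, fun A => ?_⟩
    obtain ⟨x₀, hx₀⟩ := Filter.eventually_atTop.1 (hC A)
    refine ⟨max x₀ 1, fun N hN => ?_⟩
    have hN1 : 1 ≤ N := (le_max_right _ _).trans hN
    obtain ⟨P, hP2, hPc, hP⟩ := hx₀ N ((le_max_left _ _).trans hN)
    refine ⟨P, ⟨fun f hf => (hP2 f hf).1, hPc⟩, fun f hf => (hP2 f hf).2, fun q hq hqκ hqK hqP D a hD ha y hy => ?_⟩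
    refine le_trans (le_of_eq ?_) (hP q (hκx hN1 hqκ) hqK hqP a D (hD.toLS hq ha) y hy)
    refine sum_congr rfl fun l _ => ?_
    unfold E
    rw [primePi_eq]
    rfl

end Pool.Agent.Results.MP_188a10_nt.NestedEachDivisor
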