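import Pool.Agent.U856.EH.M16
import Pool.Agent.U471.RP.LogNear

/-!
# Weighted level of distribution `N / (log N) ^ K` for all the residues near almost all values of real polynomials

Let `f` be a real polynomial of degree at most `k` whose coefficient of `t ^ k` lies between `(log N) ^ (-C)` and
`(log N) ^ C`, with `|f(m)| ≤ B N` for `m = 1, …, x`, where `(log N) ^ C x ^ k ≥ N`; the other coefficients are arbitrary.
Let at most `(log N) ^ T` systems of divisor-bounded weights, of heights and of shifts (from a set of at most `(log N) ^ T`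
shifts), all of them functions of the modulus, be given. For all but a proportion `(log N) ^ (-U)` of the `m ≤ x`, ALL the
integers `a` with `|a - f(m)| ≤ (log N) ^ W` are such that the weighted sums of the discrepancies of the primes in the
residue classes of `a` (shifted), over the moduli `q ≤ Q ≤ N / (log N) ^ K`, are at most `N / (log N) ^ U`. The theorem is
uniform in `f`.

Proof: an inverse theorem for Weyl sums (`Pool.Agent.H373R2.NB.IW_all`) shows that the integers near the values have, up to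
powers of `log N`, the least possible additive energy of some order (`Pool.Agent.U471.RP.energy_real`); then the theorem of
helper856 on families of residues of small energy (`Pool.Agent.U856.EH.few_fam`) is applied for every distance of the residue
from the integer part of `f(m)` (`Pool.Agent.U471.RP.log_near`).
-/

set_option autoImplicit false

namespace Pool.Agent.Results.MP_188a10_nt.RealPolynomialResidues

open Finset Polynomial

/-- `π(y; q, b)`: the number of the primes `p ≤ y` with `p ≡ b (mod q)` -/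
def piAP (y q : ℕ) (b : ℤ) : ℕ := ((Icc 1 y).filter (fun p : ℕ => p.Prime ∧ (p : ℤ) ≡ b [ZMOD q])).card

/-- `li y = ∫_2^y dt / log t` for `y ≥ 2`, and `0` for `y < 2` -/
noncomputable def li (y : ℕ) : ℝ := if 2 ≤ y then ∫ t in (2 : ℝ)..y, 1 / Real.log t else 0

/-- The discrepancy `π(y; q, b) - li y / φ(q)`. -/
noncomputable def disc (y q : ℕ) (b : ℤ) : ℝ := piAP y q b - li y / Nat.totient q

/-- The sum of `λ(q) (π(y(q); q, a + h(q)) - li y(q) / φ(q))` over the `q ≤ Q` prime to `a + h(q)`. -/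
noncomputable def weighted (lam : ℕ → ℝ) (y : ℕ → ℕ) (h : ℕ → ℤ) (Q : ℕ) (a : ℤ) : ℝ :=
  ∑ q ∈ (Icc 1 Q).filter (fun q : ℕ => Int.gcd (a + h q) q = 1), lam q * disc (y q) q (a + h q)

/-- `n ≤ (log N) ^ T` systems of weights `λ_l(q)` with `|λ_l(q)| ≤ (τ(q) log N) ^ T`, where `τ(q)` is the number of the
divisors of `q` (for instance `|λ_l(q)| ≤ 3 ^ ν(q)`, if `T = 2`), of heights `y_l(q) ≤ B N` and of shifts `h_l(q) ∈ H`, where
`H` is a set of at most `(log N) ^ T` integers from `[-B N, B N]`. -/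
structure Systems (B T N : ℕ) where
  n : ℕ
  lam : Fin n → ℕ → ℝ
  y : Fin n → ℕ → ℕ
  h : Fin n → ℕ → ℤ
  H : Finset ℤ
  few : (n : ℝ) ≤ Real.log N ^ T
  weights : ∀ l q, |lam l q| ≤ (q.divisors.card * Real.log N) ^ T
  heights : ∀ l q, y l q ≤ B * N
  shifts : ∀ l q, h l q ∈ H
  fewShifts : (H.card : ℝ) ≤ Real.log N ^ T
  shiftSize : ∀ τ ∈ H, |τ| ≤ B * N

/-- For all `l`, all `Q ≤ N / (log N) ^ K` and all `z ≤ B N` the sum of
`λ_l(q) (π(min(z, y_l(q)); q, a + h_l(q)) - li(min(z, y_l(q))) / φ(q))` over the `q ≤ Q` prime to `a + h_l(q)` is at most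
`N / (log N) ^ U` in absolute value. -/
def Good {B T N : ℕ} (K U : ℕ) (S : Systems B T N) (a : ℤ) : Prop :=
  ∀ l, ∀ Q : ℕ, (Q : ℝ) ≤ N / Real.log N ^ K → ∀ z : ℕ, z ≤ B * N →
    |weighted (S.lam l) (fun q => min z (S.y l q)) (S.h l) Q a| ≤ N / Real.log N ^ U

/-- The real polynomials `f` of degree at most `k`, with `(log N) ^ (-C) ≤ f_k ≤ (log N) ^ C` for the coefficient `f_k`
of `t ^ k`, and with `|f(m)| ≤ B N` for `m = 1, …, x`, where `(log N) ^ C x ^ k ≥ N`. -/
structure Normal (k B C N x : ℕ) (f : ℝ[X]) : Prop where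
  degree : f.natDegree ≤ k
  lower : 1 / Real.log N ^ C ≤ f.coeff k
  upper : f.coeff k ≤ Real.log N ^ C
  length : (N : ℝ) ≤ Real.log N ^ C * (x : ℝ) ^ k
  values : ∀ m ∈ Icc 1 x, |f.eval (m : ℝ)| ≤ B * N

open Classical in
/-- The number of the `m ≤ x` such that some integer `a` with `|a - f(m)| ≤ (log N) ^ W` does not have the property
`Good`. -/
noncomputable def exceptions {B T N : ℕ} (K U W : ℕ) (S : Systems B T N) (x : ℕ) (f : ℝ[X]) : ℕ :=
  ((Icc 1 x).filter (fun m : ℕ => ∃ a : ℤ, |(a : ℝ) - f.eval (m : ℝ)| ≤ Real.log N ^ W ∧ ¬ Good K U S a)).card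

lemma disc_eq (y q : ℕ) (b : ℤ) : disc y q b = Pool.Agent.U856.EH.DP y q b := by
  unfold disc Pool.Agent.U856.EH.DP
  congr 1
  unfold piAP Pool.Agent.U856.EH.FZ Pool.Agent.U856.EH.pr
  rw [card_filter, Nat.cast_sum, sum_filter]
  apply sum_congr rfl
  intro n _
  by_cases h1 : (n : ℤ) ≡ b [ZMOD q] <;> by_cases h2 : n.Prime <;> simp [h1, h2]

lemma weighted_eq (lam : ℕ → ℝ) (y : ℕ → ℕ) (h : ℕ → ℤ) (Q : ℕ) (a : ℤ) :
    weighted lam y h Q a = Pool.Agent.U856.EH.wt Pool.Agent.U856.EH.DP lam y h Q a := by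
  unfold weighted Pool.Agent.U856.EH.wt
  simp only [disc_eq]

/-- **Weighted level of distribution for all the residues near the values of real polynomials.** Let `k ≥ 1`, `B`, `C`,
`T`, `U` and `W` be fixed. There is a `K` such that the following holds for all large `N`, all systems `S` of weights,
heights and shifts as above, all `x` and ALL real polynomials `f` with `Normal k B C N x f`: for all but at most
`x / log ^ U N` of the `m ≤ x`, ALL the integers `a` with `|a - f(m)| ≤ (log N) ^ W` satisfy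
`|∑ λ_l(q) (π(min(z, y_l(q)); q, a + h_l(q)) - li(min(z, y_l(q))) / φ(q))| ≤ N / (log N) ^ U`, the sum over the `q ≤ Q` prime
to `a + h_l(q)`, for all `l`, all `Q ≤ N / (log N) ^ K` and all `z ≤ B N`. -/
theorem result (k : ℕ) (hk : 1 ≤ k) (B C T U W : ℕ) :
    ∃ K N₀ : ℕ, ∀ N : ℕ, N₀ ≤ N → ∀ (S : Systems B T N) (x : ℕ) (f : ℝ[X]), Normal k B C N x f →
      (exceptions K U W S x f : ℝ) ≤ x / Real.log N ^ U := by
  classical
  obtain ⟨p, hp, hnear⟩ := Pool.Agent.U471.RP.log_near k hk
  obtain ⟨K, N₁, h1⟩ := Pool.Agent.U856.EH.few_fam Pool.Agent.U856.EH.DP Pool.Agent.U856.EH.allP p (B + 1)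
    (6 * C + 2 * W + 1) T (U + W + 1) T
  obtain ⟨N₂, h2⟩ := Pool.Agent.U471.RP.ev_log 1
  obtain ⟨N₀, h0⟩ := hnear B C W U (Θ := (N : ℕ) × Systems B T N) (fun N θ => θ.1 = N)
    (fun N θ a => ¬ Good K U θ.2 a) (N₁ + N₂)
    (fun N hN θ hθ x s hs hE S hSx hS => by
      obtain ⟨N', σ⟩ := θ
      simp only at hθ hS
      subst hθ
      have hL := h2 N' (by omega)
      have hL0 : 0 ≤ Real.log N' := by linarith
      have h3 := h1 N' (by omega) x s hs hE σ.H σ.fewShifts (fun τ hτ => (σ.shiftSize τ hτ).trans (by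
        push_cast
        have : (0 : ℤ) ≤ N' := Int.natCast_nonneg _
        nlinarith)) σ.n σ.few σ.lam σ.y σ.h (fun l q => (σ.weights l q).trans (le_of_eq (by rw [mul_pow, mul_comm])))
        (fun l q => (σ.heights l q).trans (Nat.mul_le_mul_right _ (by omega))) σ.shifts
      refine le_trans ?_ h3
      apply Nat.cast_le.2
      apply card_le_card
      intro m hm
      rw [mem_filter]
      refine ⟨hSx hm, fun hcon => hS m hm fun l Q hQ z hz => ?_⟩
      rw [weighted_eq]
      refine (hcon l Q hQ z (hz.trans (Nat.mul_le_mul_right _ (by omega)))).trans ?_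
      apply div_le_div_of_nonneg_left (Nat.cast_nonneg _) (by positivity)
      exact pow_le_pow_right₀ hL (by omega))
  refine ⟨K, N₀, fun N hN S x f hf => ?_⟩
  unfold exceptions
  exact h0 N hN ⟨N, S⟩ rfl x f ⟨hf.degree, hf.lower, hf.upper, hf.length, hf.values⟩ _ (filter_subset _ _)
    fun m hm => (mem_filter.1 hm).2

end Pool.Agent.Results.MP_188a10_nt.RealPolynomialResidues
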